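import Pool.Agent.helper73.TC.HDefs

/-! [TC-G] geometry of realizations.  helper87 -/

set_option autoImplicit false
set_option linter.unusedSectionVars false
open Topology

noncomputable section
namespace Pool.Agent.helper73.TC

section mixing
variable {V : Type} [Fintype V] [DecidableEq V]

theorem extG {a b : stdSimplex ℝ V} (h : ∀ x, (a : V → ℝ) x = (b : V → ℝ) x) : a = b :=
  Subtype.ext (funext h)

/-- the support of a point of the standard simplex -/
def suppG (w : stdSimplex ℝ V) : Finset V := Finset.univ.filter fun x => 0 < (w : V → ℝ) x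

theorem mem_suppG {w : stdSimplex ℝ V} {x : V} : x ∈ suppG w ↔ 0 < (w : V → ℝ) x := by
  simp [suppG]

theorem notMem_suppG {w : stdSimplex ℝ V} {x : V} : x ∉ suppG w ↔ (w : V → ℝ) x = 0 := by
  rw [mem_suppG, not_lt]
  exact ⟨fun h => le_antisymm h (w.2.1 x), fun h => h.le⟩

/-- straight line between two points of the standard simplex -/
def mixG (a b : stdSimplex ℝ V) (t : unitInterval) : stdSimplex ℝ V :=
  ⟨fun x => (1 - (t : ℝ)) * (a : V → ℝ) x + t * (b : V → ℝ) x, fun x =>
    add_nonneg (mul_nonneg (by linarith [t.2.2]) (a.2.1 x)) (mul_nonneg t.2.1 (b.2.1 x)), by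
    rw [Finset.sum_add_distrib, ← Finset.mul_sum, ← Finset.mul_sum]
    have h1 : ∑ x, (a : V → ℝ) x = 1 := a.2.2
    have h2 : ∑ x, (b : V → ℝ) x = 1 := b.2.2
    rw [h1, h2]; ring⟩

theorem mixG_apply (a b : stdSimplex ℝ V) (t : unitInterval) (x : V) :
    (mixG a b t : V → ℝ) x = (1 - (t : ℝ)) * (a : V → ℝ) x + t * (b : V → ℝ) x := rfl

theorem mixG_zero (a b : stdSimplex ℝ V) : mixG a b 0 = a := by
  refine extG fun x => ?_; rw [mixG_apply]; simp

theorem mixG_one (a b : stdSimplex ℝ V) : mixG a b 1 = b := by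
  refine extG fun x => ?_; rw [mixG_apply]; simp

theorem continuous_mixG : Continuous fun p : unitInterval × stdSimplex ℝ V × stdSimplex ℝ V =>
    mixG p.2.1 p.2.2 p.1 := by
  refine Continuous.subtype_mk (continuous_pi fun x => ?_) _
  have h1 : Continuous fun p : unitInterval × stdSimplex ℝ V × stdSimplex ℝ V =>
      ((p.2.1 : V → ℝ) x) := (continuous_apply x).comp
        (continuous_subtype_val.comp (continuous_fst.comp continuous_snd))
  have h2 : Continuous fun p : unitInterval × stdSimplex ℝ V × stdSimplex ℝ V =>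
      ((p.2.2 : V → ℝ) x) := (continuous_apply x).comp
        (continuous_subtype_val.comp (continuous_snd.comp continuous_snd))
  have h3 : Continuous fun p : unitInterval × stdSimplex ℝ V × stdSimplex ℝ V =>
      ((p.1 : unitInterval) : ℝ) := continuous_subtype_val.comp continuous_fst
  exact ((continuous_const.sub h3).mul h1).add (h3.mul h2)

theorem suppG_mixG (a b : stdSimplex ℝ V) (t : unitInterval) :
    suppG (mixG a b t) ⊆ suppG a ∪ suppG b := by
  intro x hx
  rw [Finset.mem_union]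
  by_contra hc
  push Not at hc
  rw [notMem_suppG, notMem_suppG] at hc
  rw [mem_suppG, mixG_apply, hc.1, hc.2] at hx
  simp at hx

/-- maps into a subspace of the simplex joined by straight lines are homotopic -/
theorem homotopic_of_mixG {Y Z : Type} [TopologicalSpace Y] [TopologicalSpace Z]
    (ι : Z → stdSimplex ℝ V) (hι : IsEmbedding ι) (f g : C(Y, Z))
    (h : ∀ y t, ∃ z, ι z = mixG (ι (f y)) (ι (g y)) t) : f.Homotopic g := by
  choose H hH using h
  refine ⟨⟨⟨fun p => H p.2 p.1, ?_⟩, fun y => ?_, fun y => ?_⟩⟩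
  · rw [hι.continuous_iff]
    have e : (ι ∘ fun p : unitInterval × Y => H p.2 p.1) =
        (fun p : unitInterval × stdSimplex ℝ V × stdSimplex ℝ V => mixG p.2.1 p.2.2 p.1) ∘
          fun p : unitInterval × Y => (p.1, ι (f p.2), ι (g p.2)) := by
      funext p; exact hH _ _
    rw [e]
    refine continuous_mixG.comp ?_
    exact continuous_fst.prodMk (((hι.continuous.comp f.continuous).comp continuous_snd).prodMk
      ((hι.continuous.comp g.continuous).comp continuous_snd))
  · apply hι.injective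
    show ι (H y 0) = _
    rw [hH, mixG_zero]
  · apply hι.injective
    show ι (H y 1) = _
    rw [hH, mixG_one]

/-- the vertex `v` of the standard simplex -/
def vtxG (v : V) : stdSimplex ℝ V := ⟨Pi.single v 1, single_mem_stdSimplex ℝ v⟩

theorem vtxG_apply (v x : V) : (vtxG v : V → ℝ) x = if x = v then 1 else 0 := by
  show (Pi.single v (1 : ℝ) : V → ℝ) x = _
  rw [Pi.single_apply]

theorem suppG_vtxG (v : V) : suppG (vtxG v) = {v} := by
  ext x
  rw [mem_suppG, vtxG_apply, Finset.mem_singleton]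
  split_ifs with h <;> simp [h]

/-- the coordinates different from `v` are not all zero -/
theorem sum_compl (w : stdSimplex ℝ V) (v : V) :
    ∑ x, (if x = v then 0 else (w : V → ℝ) x) = 1 - (w : V → ℝ) v := by
  have h1 : ∑ x, (w : V → ℝ) x = 1 := w.2.2
  have h2 : ∀ x, (if x = v then 0 else (w : V → ℝ) x) =
      (w : V → ℝ) x - if x = v then (w : V → ℝ) v else 0 := by
    intro x; split_ifs with h
    · rw [h]; ring
    · ring
  rw [Finset.sum_congr rfl fun x _ => h2 x, Finset.sum_sub_distrib, h1]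
  simp

/-- remove the coordinate `v` and normalise -/
def remG (v : V) (w : stdSimplex ℝ V) (h : (w : V → ℝ) v < 1) : stdSimplex ℝ V :=
  ⟨fun x => (if x = v then 0 else (w : V → ℝ) x) / (1 - (w : V → ℝ) v), fun x => by
      refine div_nonneg ?_ (by linarith)
      split_ifs
      · exact le_rfl
      · exact w.2.1 x, by
      rw [← Finset.sum_div, sum_compl, div_self (by linarith)]⟩

theorem remG_apply (v : V) (w : stdSimplex ℝ V) (h : (w : V → ℝ) v < 1) (x : V) :
    (remG v w h : V → ℝ) x = (if x = v then 0 else (w : V → ℝ) x) / (1 - (w : V → ℝ) v) := rfl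

theorem remG_self (v : V) (w : stdSimplex ℝ V) (h : (w : V → ℝ) v < 1) :
    (remG v w h : V → ℝ) v = 0 := by
  rw [remG_apply, if_pos rfl, zero_div]

theorem suppG_remG (v : V) (w : stdSimplex ℝ V) (h : (w : V → ℝ) v < 1) :
    suppG (remG v w h) = (suppG w).erase v := by
  ext x
  rw [mem_suppG, Finset.mem_erase, mem_suppG]
  by_cases hx : x = v
  · rw [hx, remG_self]; simp
  · rw [remG_apply, if_neg hx]
    constructor
    · intro h1
      refine ⟨hx, ?_⟩
      by_contra h2
      push Not at h2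
      have := div_nonpos_of_nonpos_of_nonneg h2 (by linarith : (0 : ℝ) ≤ 1 - (w : V → ℝ) v)
      linarith
    · rintro ⟨_, h1⟩
      exact div_pos h1 (by linarith)

theorem remG_eq_self (v : V) (w : stdSimplex ℝ V) (h : (w : V → ℝ) v < 1)
    (h0 : (w : V → ℝ) v = 0) : remG v w h = w := by
  refine extG fun x => ?_
  rw [remG_apply, h0, sub_zero, div_one]
  split_ifs with hx
  · rw [hx, h0]
  · rfl

end mixing

section G
variable {V : Type} [Fintype V] [DecidableEq V] (C : Set (Finset V)) (v : V)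

theorem Real.embG : IsEmbedding (fun w : Real C => w.1) :=
  (IsEmbedding.subtypeVal : IsEmbedding (Subtype.val :
    {w : stdSimplex ℝ V // (Finset.univ.filter fun v => 0 < (w : V → ℝ) v) ∈ C} → _))

theorem Real.embG' (P : Set (Real C)) : IsEmbedding (fun w : P => w.1.1) :=
  (Real.embG C).comp IsEmbedding.subtypeVal

theorem Real.suppG_mem (w : Real C) : suppG w.1 ∈ C := w.2

theorem Real.continuous_coordG (x : V) : Continuous fun w : Real C => (w.1 : V → ℝ) x :=
  (continuous_apply x).comp (continuous_subtype_val.comp (Real.embG C).continuous)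

/-- `{w | w v < 1}` -/
def Ulow : Set (Real C) := {w | (w.1 : V → ℝ) v < 1}
/-- `{w | 0 < w v}` -/
def Vup : Set (Real C) := {w | 0 < (w.1 : V → ℝ) v}

theorem Ulow_lt (w : Ulow C v) : (w.1.1 : V → ℝ) v < 1 := w.2
theorem UV_lt (w : ↥(Ulow C v ∩ Vup C v)) : (w.1.1 : V → ℝ) v < 1 := w.2.1
theorem UV_pos (w : ↥(Ulow C v ∩ Vup C v)) : 0 < (w.1.1 : V → ℝ) v := w.2.2

theorem Ulow_open : IsOpen (Ulow C v) :=
  isOpen_lt (Real.continuous_coordG C v) continuous_const

theorem Vup_open : IsOpen (Vup C v) :=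
  isOpen_lt continuous_const (Real.continuous_coordG C v)

theorem Ulow_union_Vup : Ulow C v ∪ Vup C v = Set.univ := by
  rw [Set.eq_univ_iff_forall]
  intro w
  by_cases h : (w.1 : V → ℝ) v < 1
  · exact Or.inl h
  · right
    push Not at h
    exact lt_of_lt_of_le one_pos h

theorem Vup_contractible (hC : DownClosed C) (hv : {v} ∈ C) : ContractibleSpace (Vup C v) := by
  rw [contractible_iff_id_nullhomotopic]
  have hvtx : suppG (vtxG v) ∈ C := by rw [suppG_vtxG]; exact hv
  refine ⟨⟨⟨vtxG v, hvtx⟩, ?_⟩, ?_⟩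
  · show 0 < (vtxG v : V → ℝ) v
    rw [vtxG_apply, if_pos rfl]; exact one_pos
  refine homotopic_of_mixG (fun w : Vup C v => w.1.1) (Real.embG' C _) _ _ fun y t => ?_
  have hy : 0 < (y.1.1 : V → ℝ) v := y.2
  have h1 : suppG (mixG y.1.1 (vtxG v) t) ∈ C := by
    refine hC _ (Real.suppG_mem C y.1) _ ((suppG_mixG _ _ _).trans ?_)
    rw [suppG_vtxG]
    refine Finset.union_subset subset_rfl ?_
    rw [Finset.singleton_subset_iff, mem_suppG]
    exact hy
  refine ⟨⟨⟨mixG y.1.1 (vtxG v) t, h1⟩, ?_⟩, rfl⟩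
  show 0 < (mixG y.1.1 (vtxG v) t : V → ℝ) v
  rw [mixG_apply, vtxG_apply, if_pos rfl]
  have ht0 := t.2.1
  have ht1 := t.2.2
  rcases ht0.lt_or_eq with h | h
  · have := mul_nonneg (by linarith : (0 : ℝ) ≤ 1 - t) hy.le
    linarith
  · rw [← h]; simpa using hy

/-- the inclusion of the realization of the deletion -/
def delIncl : C(Real (del C v), Ulow C v) :=
  ⟨fun w => ⟨⟨w.1, w.2.1⟩, by
    have h : (w.1 : V → ℝ) v = 0 := notMem_suppG.1 w.2.2
    show (w.1 : V → ℝ) v < 1
    rw [h]; exact one_pos⟩, by fun_prop⟩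

theorem Real.del_zeroG (w : Real (del C v)) : (w.1 : V → ℝ) v = 0 := notMem_suppG.1 w.2.2

theorem continuous_remG : Continuous fun w : Ulow C v => remG v w.1.1 (Ulow_lt C v w) := by
  refine Continuous.subtype_mk (continuous_pi fun x => ?_) _
  have h1 : Continuous fun w : Ulow C v => ((w.1.1 : V → ℝ) v) :=
    (Real.continuous_coordG C v).comp continuous_subtype_val
  have h2 : Continuous fun w : Ulow C v => ((w.1.1 : V → ℝ) x) :=
    (Real.continuous_coordG C x).comp continuous_subtype_val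
  refine Continuous.div ?_ (continuous_const.sub h1) fun w => ?_
  · split_ifs
    · exact continuous_const
    · exact h2
  · have : (w.1.1 : V → ℝ) v < 1 := w.2
    linarith

/-- the realization of the deletion is a deformation retract of `Ulow` -/
theorem exists_retr_del (hC : DownClosed C) : ∃ r : C(Ulow C v, Real (del C v)),
    (r.comp (delIncl C v)).Homotopic (.id _) ∧ ((delIncl C v).comp r).Homotopic (.id _) := by
  have hmem : ∀ w : Ulow C v, suppG (remG v w.1.1 (Ulow_lt C v w)) ∈ del C v := fun w => by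
    rw [suppG_remG]
    exact ⟨hC _ (Real.suppG_mem C w.1) _ (Finset.erase_subset _ _), Finset.notMem_erase _ _⟩
  refine ⟨⟨fun w => ⟨remG v w.1.1 (Ulow_lt C v w), hmem w⟩, ?_⟩, ?_, ?_⟩
  · exact (Real.embG (del C v)).continuous_iff.2 (continuous_remG C v)
  · refine homotopic_of_mixG (fun w : Real (del C v) => w.1) (Real.embG _) _ _ fun y t => ?_
    refine ⟨y, ?_⟩
    have e : remG v y.1 (Ulow_lt C v (delIncl C v y)) = y.1 :=
      remG_eq_self _ _ _ (Real.del_zeroG C v y)
    show y.1 = mixG (remG v y.1 (Ulow_lt C v (delIncl C v y))) y.1 t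
    rw [e]
    refine extG fun x => ?_
    rw [mixG_apply]; ring
  · refine homotopic_of_mixG (fun w : Ulow C v => w.1.1) (Real.embG' C _) _ _ fun y t => ?_
    have hy : (y.1.1 : V → ℝ) v < 1 := y.2
    have h1 : suppG (mixG (remG v y.1.1 (Ulow_lt C v y)) y.1.1 t) ∈ C := by
      refine hC _ (Real.suppG_mem C y.1) _ ((suppG_mixG _ _ _).trans ?_)
      rw [suppG_remG]
      exact Finset.union_subset (Finset.erase_subset _ _) subset_rfl
    refine ⟨⟨⟨mixG (remG v y.1.1 (Ulow_lt C v y)) y.1.1 t, h1⟩, ?_⟩, rfl⟩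
    show (mixG (remG v y.1.1 (Ulow_lt C v y)) y.1.1 t : V → ℝ) v < 1
    rw [mixG_apply, remG_self, mul_zero, zero_add]
    have h0 : 0 ≤ (y.1.1 : V → ℝ) v := y.1.1.2.1 v
    have ht1 := t.2.2
    have ht0 := t.2.1
    nlinarith

/-- half way to the vertex `v` -/
def halfG (v : V) (u : stdSimplex ℝ V) : stdSimplex ℝ V :=
  mixG u (vtxG v) ⟨1 / 2, by norm_num, by norm_num⟩

theorem halfG_apply (u : stdSimplex ℝ V) (x : V) :
    (halfG v u : V → ℝ) x = (1 / 2) * (u : V → ℝ) x + (1 / 2) * (if x = v then 1 else 0) := by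
  unfold halfG
  rw [mixG_apply, vtxG_apply]
  norm_num

theorem continuous_halfG : Continuous (halfG v : stdSimplex ℝ V → stdSimplex ℝ V) :=
  continuous_mixG.comp (continuous_const.prodMk (continuous_id.prodMk continuous_const))

theorem suppG_halfG (u : stdSimplex ℝ V) : suppG (halfG v u) = insert v (suppG u) := by
  ext x
  rw [mem_suppG, halfG_apply, Finset.mem_insert, mem_suppG]
  have h0 : 0 ≤ (u : V → ℝ) x := u.2.1 x
  split_ifs with h
  · simp only [h, true_or, iff_true]
    rw [h] at h0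
    linarith
  · simp only [h, false_or]
    constructor <;> intro h1 <;> linarith

theorem Real.lk_zeroG (w : Real (lk C v)) : (w.1 : V → ℝ) v = 0 := notMem_suppG.1 w.2.1

/-- `Ulow ∩ Vup` is homotopy equivalent to the realization of the link -/
theorem exists_equiv_lk (hC : DownClosed C) :
    ∃ (f : C(↥(Ulow C v ∩ Vup C v), Real (lk C v))) (g : C(Real (lk C v), ↥(Ulow C v ∩ Vup C v))),
      (f.comp g).Homotopic (.id _) ∧ (g.comp f).Homotopic (.id _) := by
  have hf : ∀ w : ↥(Ulow C v ∩ Vup C v), suppG (remG v w.1.1 (UV_lt C v w)) ∈ lk C v := fun w => by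
    have hw : 0 < (w.1.1 : V → ℝ) v := UV_pos C v w
    rw [suppG_remG]
    refine ⟨Finset.notMem_erase _ _, ?_⟩
    rw [Finset.insert_erase (mem_suppG.2 hw)]
    exact Real.suppG_mem C w.1
  have hg : ∀ u : Real (lk C v), suppG (halfG v u.1) ∈ C := fun u => by
    rw [suppG_halfG]; exact u.2.2
  have hg2 : ∀ u : Real (lk C v), (halfG v u.1 : V → ℝ) v = 1 / 2 := fun u => by
    rw [halfG_apply, Real.lk_zeroG, if_pos rfl]; norm_num
  have hg3 : ∀ u : Real (lk C v), (⟨halfG v u.1, hg u⟩ : Real C) ∈ Ulow C v ∩ Vup C v := fun u => by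
    constructor
    · show (halfG v u.1 : V → ℝ) v < 1
      rw [hg2]; norm_num
    · show 0 < (halfG v u.1 : V → ℝ) v
      rw [hg2]; norm_num
  refine ⟨⟨fun w => ⟨remG v w.1.1 (UV_lt C v w), hf w⟩, ?_⟩, ⟨fun u => ⟨⟨halfG v u.1, hg u⟩, hg3 u⟩, ?_⟩,
    ?_, ?_⟩
  · refine (Real.embG (lk C v)).continuous_iff.2 ?_
    exact (continuous_remG C v).comp
      (Continuous.subtype_mk continuous_subtype_val (fun w : ↥(Ulow C v ∩ Vup C v) => w.2.1))
  · refine (Real.embG' C _).continuous_iff.2 ?_
    exact (continuous_halfG v).comp (Real.embG (lk C v)).continuous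
  · refine homotopic_of_mixG (fun w : Real (lk C v) => w.1) (Real.embG _) _ _ fun y t => ?_
    refine ⟨y, ?_⟩
    have hlt : (halfG v y.1 : V → ℝ) v < 1 := by rw [hg2]; norm_num
    have e : remG v (halfG v y.1) hlt = y.1 := by
      refine extG fun x => ?_
      rw [remG_apply, hg2, halfG_apply]
      split_ifs with hx
      · rw [hx, Real.lk_zeroG]; simp
      · ring
    show y.1 = mixG (remG v (halfG v y.1) hlt) y.1 t
    rw [e]
    refine extG fun x => ?_
    rw [mixG_apply]; ring
  · refine homotopic_of_mixG (fun w : ↥(Ulow C v ∩ Vup C v) => w.1.1) (Real.embG' C _) _ _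
      fun y t => ?_
    have hy1 : (y.1.1 : V → ℝ) v < 1 := y.2.1
    have hy0 : 0 < (y.1.1 : V → ℝ) v := y.2.2
    have h2 : (halfG v (remG v y.1.1 (UV_lt C v y)) : V → ℝ) v = 1 / 2 := by
      rw [halfG_apply, remG_self, if_pos rfl]; norm_num
    have h1 : suppG (mixG (halfG v (remG v y.1.1 (UV_lt C v y))) y.1.1 t) ∈ C := by
      refine hC _ (Real.suppG_mem C y.1) _ ((suppG_mixG _ _ _).trans ?_)
      rw [suppG_halfG, suppG_remG, Finset.insert_erase (mem_suppG.2 hy0), Finset.union_idempotent]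
    have ht0 := t.2.1
    have ht1 := t.2.2
    refine ⟨⟨⟨mixG (halfG v (remG v y.1.1 (UV_lt C v y))) y.1.1 t, h1⟩, ?_, ?_⟩, rfl⟩
    · show (mixG (halfG v (remG v y.1.1 (UV_lt C v y))) y.1.1 t : V → ℝ) v < 1
      rw [mixG_apply, h2]
      nlinarith
    · show 0 < (mixG (halfG v (remG v y.1.1 (UV_lt C v y))) y.1.1 t : V → ℝ) v
      rw [mixG_apply, h2]
      rcases ht0.lt_or_eq with h | h
      · have := mul_pos h hy0
        nlinarith
      · rw [← h]; norm_num

/-- realization of a cone -/
theorem cone_contractible (hC : DownClosed C) (hv : {v} ∈ C) (h : ∀ s ∈ C, insert v s ∈ C) :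
    ContractibleSpace (Real C) := by
  rw [contractible_iff_id_nullhomotopic]
  have hvtx : suppG (vtxG v) ∈ C := by rw [suppG_vtxG]; exact hv
  refine ⟨⟨vtxG v, hvtx⟩, ?_⟩
  refine homotopic_of_mixG (fun w : Real C => w.1) (Real.embG C) _ _ fun y t => ?_
  have h1 : suppG (mixG y.1 (vtxG v) t) ∈ C := by
    refine hC _ (h _ (Real.suppG_mem C y)) _ ((suppG_mixG _ _ _).trans ?_)
    rw [suppG_vtxG]
    refine Finset.union_subset (Finset.subset_insert _ _) ?_
    rw [Finset.singleton_subset_iff]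
    exact Finset.mem_insert_self _ _
  exact ⟨⟨mixG y.1 (vtxG v) t, h1⟩, rfl⟩

end G

end Pool.Agent.helper73.TC
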