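import Pool.Agent.helper73.TC.SDefs

/-! [TC-S2] the mesh of the barycentric subdivision.  helper87 -/

set_option autoImplicit false
open Topology

noncomputable section
namespace Pool.Agent.helper73.TC

/-- the point of an affine simplex vertex in the ambient space -/
private def amb {N : ℕ} (x : stdSimplex ℝ (Fin (N + 1))) : Fin (N + 1) → ℝ := x.1

private theorem dist_amb {N : ℕ} (x y : stdSimplex ℝ (Fin (N + 1))) :
    dist x y = dist (amb x) (amb y) := rfl

private theorem amb_abary {N m : ℕ} (v : AS N m) :
    amb (abary v) = ∑ i, (1 / ((m : ℝ) + 1)) • amb (v i) := by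
  funext j
  simp only [amb, abary, areal, baryc, Finset.sum_apply, Pi.smul_apply, smul_eq_mul]
  rfl

private theorem abary_mem {N m : ℕ} (v : AS N m) :
    amb (abary v) ∈ convexHull ℝ (Set.range fun i => amb (v i)) := by
  rw [amb_abary]
  refine (convex_convexHull ℝ _).sum_mem (fun i _ => by positivity) ?_
    (fun i _ => subset_convexHull ℝ _ ⟨i, rfl⟩)
  simp
  field_simp

private theorem dist_abary_le {N m : ℕ} (v : AS N m) (x : Fin (N + 1) → ℝ)
    (hx : x ∈ convexHull ℝ (Set.range fun i => amb (v i))) :
    dist (amb (abary v)) x ≤ ((m : ℝ) / (m + 1)) * Metric.diam (Set.range v) := by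
  have key : convexHull ℝ (Set.range fun i => amb (v i)) ⊆
      Metric.closedBall (amb (abary v)) (((m : ℝ) / (m + 1)) * Metric.diam (Set.range v)) := by
    refine convexHull_min ?_ (convex_closedBall _ _)
    rintro _ ⟨k, rfl⟩
    rw [Metric.mem_closedBall, dist_comm, dist_eq_norm, amb_abary]
    have e : ∑ i, (1 / ((m : ℝ) + 1)) • amb (v i) - amb (v k) =
        ∑ i, (1 / ((m : ℝ) + 1)) • (amb (v i) - amb (v k)) := by
      simp only [smul_sub, Finset.sum_sub_distrib]
      congr 1
      rw [Finset.sum_const, Finset.card_univ, Fintype.card_fin, ← Nat.cast_smul_eq_nsmul ℝ,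
        smul_smul]
      push_cast
      rw [mul_one_div_cancel (by positivity), one_smul]
    rw [e]
    have hD : ∀ i, ‖amb (v i) - amb (v k)‖ ≤ Metric.diam (Set.range v) := fun i => by
      rw [← dist_eq_norm, ← dist_amb]
      exact Metric.dist_le_diam_of_mem (Set.finite_range v).isBounded ⟨i, rfl⟩ ⟨k, rfl⟩
    refine (norm_sum_le _ _).trans ?_
    rw [← Finset.sum_erase_add _ _ (Finset.mem_univ k), sub_self, smul_zero, norm_zero, add_zero]
    refine (Finset.sum_le_card_nsmul _ _ ((1 / ((m : ℝ) + 1)) * Metric.diam (Set.range v))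
      fun i _ => ?_).trans ?_
    · rw [norm_smul, Real.norm_of_nonneg (by positivity)]
      exact mul_le_mul_of_nonneg_left (hD i) (by positivity)
    · rw [Finset.card_erase_of_mem (Finset.mem_univ k), Finset.card_univ, Fintype.card_fin,
        nsmul_eq_mul]
      simp only [Nat.add_sub_cancel]
      rw [← mul_assoc, mul_one_div]
  have h := key hx
  rwa [Metric.mem_closedBall, dist_comm] at h

section
variable (F : Type) [Field F] (N : ℕ)

/-- the support of the subdivision of a simplex of positive dimension -/
private theorem mem_support_aSd (m : ℕ) (v v' : AS N (m + 1))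
    (h : v' ∈ (aSd F N (m + 1) (Finsupp.single v 1)).support) :
    ∃ (k : Fin (m + 2)) (w : AS N m), v' = (Fin.cons (abary v) w : AS N (m + 1)) ∧
      w ∈ (aSd F N m (Finsupp.single (v ∘ k.succAbove : AS N m) 1)).support := by
  classical
  have e1 : aSd F N (m + 1) (Finsupp.single v 1) =
      acone F N (abary v) (aSd F N m (abd F N m (Finsupp.single v 1))) := by
    simp [aSd]
  rw [e1] at h
  have h2 : v' ∈ (Finsupp.mapDomain (fun v0 : AS N m => (Fin.cons (abary v) v0 : AS N (m + 1)))
      (aSd F N m (abd F N m (Finsupp.single v 1)))).support := h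
  have h3 := Finsupp.mapDomain_support h2
  rw [Finset.mem_image] at h3
  obtain ⟨w, hw, rfl⟩ := h3
  have e2 : abd F N m (Finsupp.single v 1) =
      ∑ i : Fin (m + 2), (-1 : F) ^ (i : ℕ) • (Finsupp.single (v ∘ i.succAbove : AS N m) 1) := by
    simp [abd, LinearMap.sum_apply, Finsupp.lmapDomain_apply, Finsupp.mapDomain_single]
  rw [e2, map_sum] at hw
  have h4 := Finsupp.support_finsetSum hw
  rw [Finset.mem_biUnion] at h4
  obtain ⟨k, _, hk⟩ := h4
  refine ⟨k, w, rfl, ?_⟩
  rw [map_smul] at hk
  exact Finsupp.support_smul hk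

private theorem hull_aSd (m : ℕ) : ∀ (v v' : AS N m),
    v' ∈ (aSd F N m (Finsupp.single v 1)).support → ∀ i,
      amb (v' i) ∈ convexHull ℝ (Set.range fun i => amb (v i)) := by
  induction m with
  | zero =>
    intro v v' h i
    have h1 : v' ∈ (Finsupp.single v (1 : F)).support := h
    have h2 := Finsupp.support_single_subset h1
    rw [Finset.mem_singleton] at h2
    rw [h2]
    exact subset_convexHull ℝ _ ⟨i, rfl⟩
  | succ m ih =>
    intro v v' h i
    obtain ⟨k, w, rfl, hw⟩ := mem_support_aSd F N m v v' h
    refine Fin.cases ?_ (fun i => ?_) i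
    · exact abary_mem v
    · have h1 := ih _ _ hw i
      refine convexHull_mono ?_ h1
      rintro _ ⟨j, rfl⟩
      exact ⟨k.succAbove j, rfl⟩

/-- every simplex of the subdivision of `v` has small diameter (sup metric of `Fin (N+1) → ℝ`) -/
theorem mesh_aSd (m : ℕ) (v : AS N m) (v' : AS N m)
    (h : v' ∈ (aSd F N m (Finsupp.single v 1)).support) (i j : Fin (m + 1)) :
    dist (v' i) (v' j) ≤ (m / (m + 1) : ℝ) * Metric.diam (Set.range v) := by
  induction m with
  | zero =>
    have : i = j := by apply Fin.ext; omega
    rw [this, dist_self]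
    simp
  | succ m ih =>
    have hh := hull_aSd F N (m + 1) v v' h
    obtain ⟨k, w, rfl, hw⟩ := mem_support_aSd F N m v v' h
    have hdiam : 0 ≤ Metric.diam (Set.range v) := Metric.diam_nonneg
    refine Fin.cases ?_ (fun i => ?_) i
    · refine Fin.cases ?_ (fun j => ?_) j
      · rw [dist_self]; positivity
      · rw [dist_amb]
        exact dist_abary_le v _ (hh j.succ)
    · refine Fin.cases ?_ (fun j => ?_) j
      · rw [dist_comm, dist_amb]
        exact dist_abary_le v _ (hh i.succ)
      · have h1 := ih _ _ hw i j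
        have e : ∀ l : Fin (m + 1), (Fin.cons (abary v) w : AS N (m + 1)) l.succ = w l := fun l => rfl
        rw [e, e]
        refine h1.trans ?_
        have h2 : Metric.diam (Set.range (v ∘ k.succAbove : AS N m)) ≤ Metric.diam (Set.range v) :=
          Metric.diam_mono (by rintro _ ⟨j, rfl⟩; exact ⟨_, rfl⟩) (Set.finite_range v).isBounded
        refine mul_le_mul ?_ h2 Metric.diam_nonneg (by positivity)
        push_cast
        rw [div_le_div_iff₀ (by positivity) (by positivity)]
        nlinarith

end

end Pool.Agent.helper73.TC
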